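import Pool.Agent.W262.RK.Stm2
import Pool.Agent.W22.RK.Loc

/-! Task RK2-LOCL: local conditions including the twist class. -/

set_option autoImplicit false

namespace Pool.Agent.W342.RK2

open Pool.Agent.W262.RK Pool.Agent.W22.RK

section sg

variable {p : ℕ} [hp : Fact p.Prime]

lemma jac_ne {k : ℤ} (hk : ¬ (p : ℤ) ∣ k) : jacobiSym k p = 1 ∨ jacobiSym k p = -1 := by
  have h : ((k : ℤ) : ZMod p) ≠ 0 := by
    intro h
    exact hk ((ZMod.intCast_zmod_eq_zero_iff_dvd k p).1 h)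
  rw [← jacobiSym.legendreSym.to_jacobiSym]
  exact legendreSym.eq_one_or_neg_one p h

lemma not_dvd_mul {a b : ℤ} (ha : ¬ (p : ℤ) ∣ a) (hb : ¬ (p : ℤ) ∣ b) : ¬ (p : ℤ) ∣ a * b := by
  intro h
  rcases (Nat.prime_iff_prime_int.1 hp.out).dvd_or_dvd h with h | h
  · exact ha h
  · exact hb h

lemma sg0_mul {a b : ℤ} (ha : ¬ (p : ℤ) ∣ a) (hb : ¬ (p : ℤ) ∣ b) :
    sg0 p (a * b) = xor (sg0 p a) (sg0 p b) := by
  unfold sg0
  rw [jacobiSym.mul_left]
  rcases jac_ne ha with h1 | h1 <;> rcases jac_ne hb with h2 | h2 <;> rw [h1, h2] <;> decide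

lemma sg0_one : sg0 p 1 = false := by
  unfold sg0
  rw [jacobiSym.one_left]
  decide

lemma sg0_eq_false {a : ℤ} (h : jacobiSym a p = 1) : sg0 p a = false := by
  unfold sg0
  rw [h]
  decide

lemma not_dvd_neg {a : ℤ} (ha : ¬ (p : ℤ) ∣ a) : ¬ (p : ℤ) ∣ -a := by
  rwa [dvd_neg]

lemma not_dvd_one : ¬ (p : ℤ) ∣ 1 := by
  intro h
  exact hp.out.one_lt.ne' (by
    have := Int.eq_one_of_dvd_one (by positivity) h
    exact_mod_cast this)

lemma not_dvd_neg_one : ¬ (p : ℤ) ∣ -1 := not_dvd_neg not_dvd_one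

lemma sg0_neg {a : ℤ} (ha : ¬ (p : ℤ) ∣ a) : sg0 p (-a) = xor (sg0 p (-1)) (sg0 p a) := by
  rw [← sg0_mul not_dvd_neg_one ha]
  congr 1
  ring

/-- the symbol of the unit part of a unit -/
lemma sgn_unit {a : ℤ} (ha : ¬ (p : ℤ) ∣ a) : sgn p a = sg0 p a := by
  unfold sgn
  have : Int.gcd a p = 1 := by
    rw [← Int.isCoprime_iff_gcd_eq_one]
    exact ((Prime.coprime_iff_not_dvd (Nat.prime_iff_prime_int.1 hp.out)).2 ha).symm
  rw [this]
  simp

lemma sgn_mul {a : ℤ} : sgn p ((p : ℤ) * a) = sg0 p a := by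
  unfold sgn
  have h : Int.gcd ((p : ℤ) * a) p = p := by
    simp [Int.gcd, Int.natAbs_mul]
  rw [h]
  congr 1
  exact Int.mul_ediv_cancel_left a (by exact_mod_cast hp.out.ne_zero)

lemma dv_mul {a : ℤ} : dv p ((p : ℤ) * a) = true := by
  unfold dv
  simp

lemma dv_unit {a : ℤ} (ha : ¬ (p : ℤ) ∣ a) : dv p a = false := by
  unfold dv
  simpa using ha

/-- an integer that is a square in the `p`-adic numbers has symbol one -/
lemma jac_of_sq {n : ℤ} (hn : ¬ (p : ℤ) ∣ n) (h : IsSquare ((n : ℚ) : ℚ_[p])) :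
    jacobiSym n p = 1 := by
  obtain ⟨z, hz⟩ := h
  have h1 : ‖((n : ℤ) : ℚ_[p])‖ = 1 := by
    have h2 : ¬ ‖((n : ℤ) : ℚ_[p])‖ < 1 := by
      rw [Padic.norm_intCast_lt_one_iff]
      exact hn
    exact le_antisymm (Padic.norm_int_le_one n) (not_lt.1 h2)
  have hz' : ((n : ℤ) : ℚ_[p]) = z * z := by
    rw [← hz]
    norm_cast
  have h3 : ‖z‖ = 1 := by
    rw [hz', norm_mul] at h1
    nlinarith [norm_nonneg z]
  let w : ℤ_[p] := ⟨z, h3.le⟩
  have h4 : (n : ℤ_[p]) = w * w := by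
    apply Subtype.ext
    rw [PadicInt.coe_mul]
    push_cast
    exact hz'
  have h5 : ((n : ℤ) : ZMod p) = PadicInt.toZMod w * PadicInt.toZMod w := by
    rw [← map_mul, ← h4, map_intCast]
  rw [← jacobiSym.legendreSym.to_jacobiSym]
  have h6 : ((n : ℤ) : ZMod p) ≠ 0 := by
    intro h
    exact hn ((ZMod.intCast_zmod_eq_zero_iff_dvd n p).1 h)
  rw [legendreSym.eq_one_iff p h6]
  exact ⟨_, h5⟩

lemma val_sq {r : ℚ} (hr : r ≠ 0) (h : IsSquare ((r : ℚ) : ℚ_[p])) : Even (padicValRat p r) := by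
  obtain ⟨z, hz⟩ := h
  have h0 : z ≠ 0 := by
    rintro rfl
    rw [mul_zero] at hz
    exact hr (by exact_mod_cast hz)
  have h1 : Padic.valuation ((r : ℚ) : ℚ_[p]) = z.valuation + z.valuation := by
    rw [hz, Padic.valuation_mul h0 h0]
  rw [Padic.valuation_ratCast] at h1
  exact ⟨_, h1⟩

/-- comparison of two integers with the same square class -/
lemma cmp {e f : ℤ} (he : ¬ (p : ℤ) ^ 2 ∣ e) (hf : ¬ (p : ℤ) ^ 2 ∣ f)
    (h : IsSquare ((e * f : ℚ) : ℚ_[p])) : dv p e = dv p f ∧ sgn p e = sgn p f := by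
  have hp0 : ((p : ℤ)) ≠ 0 := by exact_mod_cast hp.out.ne_zero
  have hpq : ((p : ℚ)) ≠ 0 := by exact_mod_cast hp.out.ne_zero
  have he0 : e ≠ 0 := by rintro rfl; exact he (dvd_zero _)
  have hf0 : f ≠ 0 := by rintro rfl; exact hf (dvd_zero _)
  have key : ∀ a b : ℤ, ¬ (p : ℤ) ∣ a → ¬ (p : ℤ) ∣ b → IsSquare ((a * b : ℚ) : ℚ_[p]) →
      sg0 p a = sg0 p b := by
    intro a b ha hb hab
    have h1 : jacobiSym (a * b) p = 1 := jac_of_sq (not_dvd_mul ha hb) (by push_cast; exact hab)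
    have h2 := sg0_eq_false h1
    rw [sg0_mul ha hb] at h2
    revert h2
    cases sg0 p a <;> cases sg0 p b <;> decide
  have odd : ∀ a b : ℤ, ¬ (p : ℤ) ∣ a → ¬ (p : ℤ) ∣ b →
      ¬ IsSquare ((((p * a : ℤ) : ℚ) * b : ℚ) : ℚ_[p]) := by
    intro a b ha hb hab
    have ha0 : a ≠ 0 := by rintro rfl; exact ha (dvd_zero _)
    have hb0 : b ≠ 0 := by rintro rfl; exact hb (dvd_zero _)
    have haq : (a : ℚ) ≠ 0 := by exact_mod_cast ha0
    have hbq : (b : ℚ) ≠ 0 := by exact_mod_cast hb0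
    have h1 := val_sq (p := p) (by push_cast; positivity) hab
    push_cast at h1
    rw [padicValRat.mul (mul_ne_zero hpq haq) hbq, padicValRat.mul hpq haq, v_int ha, v_int hb,
      padicValRat.self hp.out.one_lt] at h1
    revert h1
    decide
  by_cases h1 : (p : ℤ) ∣ e <;> by_cases h2 : (p : ℤ) ∣ f
  · obtain ⟨a, rfl⟩ := h1
    obtain ⟨b, rfl⟩ := h2
    have ha : ¬ (p : ℤ) ∣ a := fun h => he (by rw [pow_two]; exact mul_dvd_mul_left _ h)
    have hb : ¬ (p : ℤ) ∣ b := fun h => hf (by rw [pow_two]; exact mul_dvd_mul_left _ h)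
    rw [dv_mul, dv_mul, sgn_mul, sgn_mul]
    refine ⟨rfl, key a b ha hb ?_⟩
    obtain ⟨z, hz⟩ := h
    refine ⟨z / p, ?_⟩
    have hpc : ((p : ℕ) : ℚ_[p]) ≠ 0 := by exact_mod_cast hp.out.ne_zero
    field_simp
    push_cast at hz ⊢
    rw [pow_two z, ← hz]
    ring
  · obtain ⟨a, rfl⟩ := h1
    exact absurd h (odd a f (fun h => he (by rw [pow_two]; exact mul_dvd_mul_left _ h)) h2)
  · obtain ⟨b, rfl⟩ := h2
    refine absurd ?_ (odd b e (fun h => hf (by rw [pow_two]; exact mul_dvd_mul_left _ h)) h1)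
    rwa [mul_comm] at h
  · rw [dv_unit h1, dv_unit h2, sgn_unit h1, sgn_unit h2]
    exact ⟨rfl, key e f h1 h2 h⟩

/-- transfer -/
lemma cmpx {x : ℚ} {e f : ℤ} (hx : x ≠ 0) (he : ¬ (p : ℤ) ^ 2 ∣ e) (hf : ¬ (p : ℤ) ^ 2 ∣ f)
    (h1 : IsSquare ((x * e : ℚ) : ℚ_[p])) (h2 : IsSquare ((x * f : ℚ) : ℚ_[p])) :
    dv p e = dv p f ∧ sgn p e = sgn p f := by
  apply cmp he hf
  obtain ⟨a, ha⟩ := h1
  obtain ⟨b, hb⟩ := h2
  have hxc : ((x : ℚ) : ℚ_[p]) ≠ 0 := by exact_mod_cast hx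
  refine ⟨a * b / x, ?_⟩
  have h3 : ((e : ℤ) : ℚ_[p]) = a * a / x := by
    rw [← ha]
    push_cast
    field_simp
  have h4 : ((f : ℤ) : ℚ_[p]) = b * b / x := by
    rw [← hb]
    push_cast
    field_simp
  push_cast
  rw [h3, h4]
  ring

end sg

theorem xcl : XCL := by
  intro c κ neg p hp hp2 hκ
  have : Fact p.Prime := ⟨hp⟩
  have e01 := sg0_mul (hκ 0) (hκ 1)
  have e02 := sg0_mul (hκ 0) (hκ 2)
  have n0 := sg0_neg (hκ 0)
  have n2 := sg0_neg (hκ 2)
  unfold XC LL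
  split_ifs
  · refine ⟨by simp, ?_⟩
    rintro a b c d a' b' c' d' ⟨rfl, h1⟩ ⟨rfl, h2⟩
    refine ⟨rfl, ?_⟩
    revert h1 h2
    generalize sg0 p (κ 0) = s
    revert a c d a' c' d' s
    decide
  · refine ⟨by simp, ?_⟩
    rintro a b c d a' b' c' d' ⟨rfl, h1⟩ ⟨rfl, h2⟩
    refine ⟨rfl, ?_⟩
    revert h1 h2
    generalize sg0 p (κ 0) = s
    revert a d a' d' s
    decide
  · refine ⟨by simp, ?_⟩
    rintro a b c d a' b' c' d' ⟨rfl, h1⟩ ⟨rfl, h2⟩
    refine ⟨rfl, ?_⟩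
    revert h1 h2
    generalize sg0 p (κ 0) = s
    revert b c b' c' s
    decide
  · rw [e01, e02, n0, n2]
    generalize sg0 p (κ 0) = s0
    generalize sg0 p (κ 1) = s1
    generalize sg0 p (κ 2) = s2
    generalize sg0 p (-1) = s3
    refine ⟨by simp, ?_⟩
    rintro a b c d a' b' c' d' ⟨rfl, rfl⟩ ⟨rfl, rfl⟩
    revert a b a' b' s0 s1 s2 s3 neg
    decide

section loc

variable {p : ℕ} [hp : Fact p.Prime]

lemma not_sq_of_unit {a : ℤ} (ha : ¬ (p : ℤ) ∣ a) : ¬ (p : ℤ) ^ 2 ∣ a :=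
  fun h => ha ((Dvd.intro_left _ (by rw [pow_two])).trans h)

lemma not_sq_of_squarefree {a : ℤ} (ha : Squarefree a) : ¬ (p : ℤ) ^ 2 ∣ a := by
  intro h
  rw [pow_two] at h
  exact (Nat.prime_iff_prime_int.1 hp.out).not_isUnit (ha _ h)

/-- `r` and `c` have the same square class if `r - c` has larger valuation than `c` -/
lemma near (hp2 : p ≠ 2) {r c : ℚ} (hc : c ≠ 0)
    (h : r - c = 0 ∨ padicValRat p c < padicValRat p (r - c)) :
    IsSquare ((r * c : ℚ) : ℚ_[p]) := by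
  have h1 : IsSquare ((1 + (r - c) / c : ℚ) : ℚ_[p]) := by
    apply isSquare_one_add_rat hp2
    rcases h with h | h
    · left
      rw [h, zero_div]
    · by_cases h0 : r - c = 0
      · left
        rw [h0, zero_div]
      · right
        rw [padicValRat.div h0 hc]
        omega
  obtain ⟨u, hu⟩ := h1
  refine ⟨((c : ℚ) : ℚ_[p]) * u, ?_⟩
  have : ((c : ℚ) : ℚ_[p]) * u * (((c : ℚ) : ℚ_[p]) * u) = ((c : ℚ) : ℚ_[p]) ^ 2 * (u * u) := by
    ring
  rw [this, ← hu, ← Rat.cast_pow, ← Rat.cast_mul]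
  congr 1
  field_simp
  ring

lemma dv_mul_unit {a b : ℤ} (hb : ¬ (p : ℤ) ∣ b) : dv p (a * b) = dv p a := by
  unfold dv
  congr 1
  apply propext
  constructor
  · intro h
    rcases (Nat.prime_iff_prime_int.1 hp.out).dvd_or_dvd h with h | h
    · exact h
    · exact absurd h hb
  · intro h
    exact h.mul_right b

lemma sgn_mul_unit {a b : ℤ} (ha : ¬ (p : ℤ) ^ 2 ∣ a) (hb : ¬ (p : ℤ) ∣ b) :
    sgn p (a * b) = xor (sgn p a) (sg0 p b) := by
  by_cases h : (p : ℤ) ∣ a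
  · obtain ⟨c, rfl⟩ := h
    have hc : ¬ (p : ℤ) ∣ c := fun h => ha (by rw [pow_two]; exact mul_dvd_mul_left _ h)
    rw [mul_assoc, sgn_mul, sgn_mul, sg0_mul hc hb]
  · rw [sgn_unit (not_dvd_mul h hb), sgn_unit h, sg0_mul h hb]

lemma not_sq_mul_unit {a b : ℤ} (ha : ¬ (p : ℤ) ^ 2 ∣ a) (hb : ¬ (p : ℤ) ∣ b) :
    ¬ (p : ℤ) ^ 2 ∣ a * b := by
  intro h
  apply ha
  have h1 : IsCoprime ((p : ℤ) ^ 2) b := 
    ((Prime.coprime_iff_not_dvd (Nat.prime_iff_prime_int.1 hp.out)).2 hb).pow_left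
  exact h1.dvd_of_dvd_mul_right h

lemma v_of_exact {a : ℤ} (h1 : (p : ℤ) ∣ a) (h2 : ¬ (p : ℤ) ^ 2 ∣ a) :
    padicValRat p (a : ℚ) = 1 := by
  obtain ⟨c, rfl⟩ := h1
  have hc : ¬ (p : ℤ) ∣ c := fun h => h2 (by rw [pow_two]; exact mul_dvd_mul_left _ h)
  have hc0 : (c : ℚ) ≠ 0 := by
    intro h
    apply hc
    have : c = 0 := by exact_mod_cast h
    simp [this]
  have hpq : ((p : ℚ)) ≠ 0 := by exact_mod_cast hp.out.ne_zero
  push_cast
  rw [padicValRat.mul hpq hc0, v_int hc, padicValRat.self hp.out.one_lt]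
  norm_num

/-- parity -/
lemma par {x : ℚ} {e : ℤ} (hx : x ≠ 0) (he : ¬ (p : ℤ) ^ 2 ∣ e)
    (h : IsSquare ((x * e : ℚ) : ℚ_[p])) : Even (padicValRat p x) ↔ dv p e = false := by
  have he0 : (e : ℚ) ≠ 0 := by
    intro h
    apply he
    have : e = 0 := by exact_mod_cast h
    simp [this]
  have h1 := val_sq (mul_ne_zero hx he0) h
  rw [padicValRat.mul hx he0] at h1
  by_cases h2 : (p : ℤ) ∣ e
  · rw [v_of_exact h2 he] at h1
    have h3 : dv p e = true := by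
      unfold dv
      simpa using h2
    rw [h3]
    rw [Int.even_iff] at h1 ⊢
    simp
    omega
  · rw [v_int h2] at h1
    rw [dv_unit h2]
    simpa using h1

/-- the third square class -/
lemma third {x a b y e1 e2 : ℚ} (hx : x ≠ 0) (ha : a ≠ 0) (he1 : e1 ≠ 0) (he2 : e2 ≠ 0)
    (hxy : y ^ 2 = x * a * b)
    (h1 : IsSquare ((x * e1 : ℚ) : ℚ_[p])) (h2 : IsSquare ((a * e2 : ℚ) : ℚ_[p])) :
    IsSquare ((b * (e1 * e2) : ℚ) : ℚ_[p]) := by
  obtain ⟨u, hu⟩ := h1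
  obtain ⟨w, hw⟩ := h2
  have hxc : ((x : ℚ) : ℚ_[p]) ≠ 0 := by exact_mod_cast hx
  have hac : ((a : ℚ) : ℚ_[p]) ≠ 0 := by exact_mod_cast ha
  have h1c : ((e1 : ℚ) : ℚ_[p]) ≠ 0 := by exact_mod_cast he1
  have h2c : ((e2 : ℚ) : ℚ_[p]) ≠ 0 := by exact_mod_cast he2
  push_cast at hu hw
  have hu0 : u ≠ 0 := by
    rintro rfl
    rw [mul_zero] at hu
    exact (mul_ne_zero hxc h1c) hu
  have hw0 : w ≠ 0 := by
    rintro rfl
    rw [mul_zero] at hw
    exact (mul_ne_zero hac h2c) hw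
  have hyc : ((y : ℚ) : ℚ_[p]) ^ 2 = x * ((a : ℚ) : ℚ_[p]) * ((b : ℚ) : ℚ_[p]) := by
    exact_mod_cast congrArg (fun w : ℚ => (w : ℚ_[p])) hxy
  refine ⟨((y : ℚ) : ℚ_[p]) * e1 * e2 / (u * w), ?_⟩
  rw [← pow_two, div_pow]
  have e : (u * w) ^ 2 = (x : ℚ_[p]) * e1 * (a * e2) := by
    rw [hu, hw]
    ring
  rw [e, mul_pow, mul_pow, hyc]
  push_cast
  field_simp

lemma sq_cancel {r c : ℚ} (hc : c ≠ 0) (h : IsSquare ((r * (c * c) : ℚ) : ℚ_[p])) :
    IsSquare ((r : ℚ) : ℚ_[p]) := by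
  obtain ⟨u, hu⟩ := h
  have hcc : ((c : ℚ) : ℚ_[p]) ≠ 0 := by exact_mod_cast hc
  refine ⟨u / c, ?_⟩
  rw [div_mul_div_comm, ← hu]
  push_cast
  field_simp

lemma sq_mul {r s : ℚ} (h1 : IsSquare ((r : ℚ) : ℚ_[p])) (h2 : IsSquare ((s : ℚ) : ℚ_[p])) :
    IsSquare ((r * s : ℚ) : ℚ_[p]) := by
  rw [Rat.cast_mul]
  exact h1.mul h2

end loc

theorem locl : LOCL := by
  intro c κ neg p hpf A B hp2 hκ hL x y hy hxy e1 e2 he1 he2 hs1 hs2
  have hq1 := not_sq_of_squarefree (p := p) he1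
  have hq2 := not_sq_of_squarefree (p := p) he2
  have he10 : e1 ≠ 0 := by rintro rfl; exact hq1 (dvd_zero _)
  have he20 : e2 ≠ 0 := by rintro rfl; exact hq2 (dvd_zero _)
  have hy2 : y ^ 2 ≠ 0 := pow_ne_zero 2 hy
  rw [hxy] at hy2
  have hx : x ≠ 0 := left_ne_zero_of_mul (left_ne_zero_of_mul hy2)
  have hxA : x - A ≠ 0 := right_ne_zero_of_mul (left_ne_zero_of_mul hy2)
  have hxB : x - B ≠ 0 := right_ne_zero_of_mul hy2
  have hthird := third (p := p) hx hxA (Int.cast_ne_zero.2 he10) (Int.cast_ne_zero.2 he20) hxy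
    hs1 hs2
  unfold LocH at hL
  unfold LL
  by_cases c0 : c = 0
  · -- class 0
    rw [if_pos c0] at hL ⊢
    obtain ⟨hA, hA2, hB, hj⟩ := hL
    obtain ⟨-, -, hsq1, hsq2⟩ := loc p A B hp2 hA hA2 hB x y hy hxy
    have hxBc : ((x - B : ℚ) : ℚ_[p]) ≠ 0 := by exact_mod_cast hxB
    have hnB : ¬ (p : ℤ) ∣ -B := not_dvd_neg hB
    by_cases hev : Even (padicValRat p x)
    · have hv := (par hx hq1 hs1).1 hev
      have h1 : IsSquare ((e1 * e2 : ℚ) : ℚ_[p]) := by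
        obtain ⟨u, hu⟩ := hthird
        obtain ⟨w, hw⟩ := hsq1 hev
        refine ⟨u / w, ?_⟩
        have hw0 : w ≠ 0 := by
          rintro rfl
          rw [mul_zero] at hw
          exact hxBc hw
        field_simp
        rw [pow_two, pow_two, ← hu, ← hw]
        push_cast
        ring
      obtain ⟨k1, k2⟩ := cmp hq1 hq2 h1
      refine ⟨k1, ?_⟩
      rw [hv, k2]
      simp
    · have hv : dv p e1 = true := by
        have := mt (par hx hq1 hs1).2 hev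
        simpa using this
      have h1 : IsSquare ((e1 * ((e2 * -B : ℤ) : ℚ) : ℚ) : ℚ_[p]) := by
        obtain ⟨u, hu⟩ := hthird
        obtain ⟨w, hw⟩ := hsq2 hev
        have hBc : ((B : ℤ) : ℚ_[p]) ≠ 0 := by
          intro h
          apply hB
          have : B = 0 := by exact_mod_cast h
          simp [this]
        push_cast at hw hu hxBc
        refine ⟨u * w / (x - B), ?_⟩
        have : u * w / ((x : ℚ_[p]) - B) * (u * w / (x - B)) =
            (u * u) * (w * w) / ((x - B) * (x - B)) := by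
          rw [div_mul_div_comm]
          ring
        rw [this, ← hu, ← hw]
        push_cast
        field_simp
      obtain ⟨k1, k2⟩ := cmp hq1 (not_sq_mul_unit hq2 hnB) h1
      rw [dv_mul_unit hnB] at k1
      rw [sgn_mul_unit hq2 hnB] at k2
      have k3 := sg0_eq_false hj
      rw [sg0_mul (hκ 0) hnB] at k3
      refine ⟨k1, ?_⟩
      rw [k2, hv]
      revert k3
      generalize sg0 p (κ 0) = s
      generalize sg0 p (-B) = t
      generalize sgn p e2 = r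
      revert s t r
      decide
  rw [if_neg c0] at hL ⊢
  by_cases c1 : c = 1
  · -- class 1
    rw [if_pos c1] at hL ⊢
    obtain ⟨hB, hB2, hA, hj⟩ := hL
    obtain ⟨-, -, hsq1, hsq2⟩ := loc p B A hp2 hB hB2 hA x y hy (by rw [hxy]; ring)
    have hnA : ¬ (p : ℤ) ∣ -A := not_dvd_neg hA
    by_cases hev : Even (padicValRat p x)
    · have hv := (par hx hq1 hs1).1 hev
      have h1 : IsSquare (((x - A) * ((1 : ℤ) : ℚ) : ℚ) : ℚ_[p]) := by
        have := hsq1 hev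
        push_cast at this ⊢
        rwa [mul_one]
      obtain ⟨k1, k2⟩ := cmpx hxA hq2 (not_sq_of_unit not_dvd_one) hs2 h1
      rw [dv_unit not_dvd_one] at k1
      rw [sgn_unit not_dvd_one, sg0_one] at k2
      exact ⟨k1, by rw [k2, hv]; simp⟩
    · have hv : dv p e1 = true := by
        have := mt (par hx hq1 hs1).2 hev
        simpa using this
      have h1 : IsSquare (((x - A) * ((-A : ℤ) : ℚ) : ℚ) : ℚ_[p]) := by
        have := hsq2 hev
        rw [mul_comm] at this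
        push_cast at this ⊢
        exact this
      obtain ⟨k1, k2⟩ := cmpx hxA hq2 (not_sq_of_unit hnA) hs2 h1
      rw [dv_unit hnA] at k1
      rw [sgn_unit hnA] at k2
      have k3 := sg0_eq_false hj
      rw [sg0_mul (hκ 0) hnA] at k3
      refine ⟨k1, ?_⟩
      rw [k2, hv]
      revert k3
      generalize sg0 p (κ 0) = s
      generalize sg0 p (-A) = t
      revert s t
      decide
  rw [if_neg c1] at hL ⊢
  by_cases c2 : c = 2
  · -- class 2
    rw [if_pos c2] at hL ⊢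
    obtain ⟨hC, hC2, hA, hj⟩ := hL
    have hC' : (p : ℤ) ∣ B - A := by rw [← neg_sub]; exact hC.neg_right
    have hC2' : ¬ (p : ℤ) ^ 2 ∣ B - A := by
      intro h
      apply hC2
      rw [← neg_sub]
      exact h.neg_right
    have hnA : ¬ (p : ℤ) ∣ -A := not_dvd_neg hA
    obtain ⟨-, -, hsq1, hsq2⟩ := loc p (B - A) (-A) hp2 hC' hC2' hnA (x - A) y hy
      (by rw [hxy]; push_cast; ring)
    by_cases hev : Even (padicValRat p (x - A))
    · have hv := (par hxA hq2 hs2).1 hev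
      have h1 : IsSquare ((x * ((1 : ℤ) : ℚ) : ℚ) : ℚ_[p]) := by
        have := hsq1 hev
        push_cast at this ⊢
        rw [mul_one]
        convert this using 1
        ring
      obtain ⟨k1, k2⟩ := cmpx hx hq1 (not_sq_of_unit not_dvd_one) hs1 h1
      rw [dv_unit not_dvd_one] at k1
      rw [sgn_unit not_dvd_one, sg0_one] at k2
      exact ⟨k1, by rw [k2, hv]; simp⟩
    · have hv : dv p e2 = true := by
        have := mt (par hxA hq2 hs2).2 hev
        simpa using this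
      have h1 : IsSquare ((x * (A : ℚ) : ℚ) : ℚ_[p]) := by
        have := hsq2 hev
        push_cast at this ⊢
        convert this using 1
        ring
      obtain ⟨k1, k2⟩ := cmpx hx hq1 (not_sq_of_unit hA) hs1 h1
      rw [dv_unit hA] at k1
      rw [sgn_unit hA] at k2
      have k3 := sg0_eq_false hj
      rw [sg0_mul (hκ 0) hA] at k3
      refine ⟨k1, ?_⟩
      rw [k2, hv]
      revert k3
      generalize sg0 p (κ 0) = s
      generalize sg0 p A = t
      revert s t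
      decide
  rw [if_neg c2] at hL ⊢
  -- class 3
  obtain ⟨hA, hB, hA2, hB2, hC2, jA, jB, jC⟩ := hL
  have hC : (p : ℤ) ∣ A - B := dvd_sub hA hB
  have hpz : ((p : ℤ)) ≠ 0 := by exact_mod_cast hpf.out.ne_zero
  have hpc : ((p : ℕ) : ℚ_[p]) ≠ 0 := by exact_mod_cast hpf.out.ne_zero
  have vA := v_of_exact hA hA2
  have vB := v_of_exact hB hB2
  have vC := v_of_exact hC hC2
  push_cast at vC
  have hA0 : (A : ℚ) ≠ 0 := by
    intro h
    rw [h] at vA
    simp at vA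
  have hB0 : (B : ℚ) ≠ 0 := by
    intro h
    rw [h] at vB
    simp at vB
  have hC0 : (A : ℚ) - B ≠ 0 := by
    intro h
    rw [h] at vC
    simp at vC
  obtain ⟨A1, rfl⟩ := hA
  obtain ⟨B1, rfl⟩ := hB
  have hA1 : ¬ (p : ℤ) ∣ A1 := fun h => hA2 (by rw [pow_two]; exact mul_dvd_mul_left _ h)
  have hB1 : ¬ (p : ℤ) ∣ B1 := fun h => hB2 (by rw [pow_two]; exact mul_dvd_mul_left _ h)
  have hC1 : ¬ (p : ℤ) ∣ A1 - B1 := fun h => hC2 (by
    rw [pow_two, ← mul_sub]; exact mul_dvd_mul_left _ h)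
  rw [Int.mul_ediv_cancel_left _ hpz] at jA jB
  rw [← mul_sub, Int.mul_ediv_cancel_left _ hpz] at jC
  have sgj : ∀ k : ℤ, jacobiSym k p = (if neg then -1 else 1) → sg0 p k = neg := by
    intro k hk
    unfold sg0
    rw [hk]
    cases neg <;> decide
  have kA := sgj _ jA
  have kB := sgj _ jB
  have kC := sgj _ jC
  rw [sg0_mul (hκ 0) hA1] at kA
  rw [sg0_mul (hκ 1) hB1] at kB
  rw [sg0_mul (hκ 2) hC1] at kC
  have m01 := sg0_mul (hκ 0) (hκ 1)
  have m02 := sg0_mul (hκ 0) (hκ 2)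
  have m0 := sg0_neg (hκ 0)
  have m2 := sg0_neg (hκ 2)
  have hpq : ((p : ℚ)) ≠ 0 := by exact_mod_cast hpf.out.ne_zero
  have hnA0 : -((p * A1 : ℤ) : ℚ) ≠ 0 := neg_ne_zero.2 hA0
  have hnB0 : -((p * B1 : ℤ) : ℚ) ≠ 0 := neg_ne_zero.2 hB0
  have fin : ∀ E F : ℤ, ¬ (p : ℤ) ^ 2 ∣ E → ¬ (p : ℤ) ^ 2 ∣ F →
      IsSquare ((x * (E : ℚ) : ℚ) : ℚ_[p]) →
      IsSquare (((x - (p * A1 : ℤ)) * (F : ℚ) : ℚ) : ℚ_[p]) →
      dv p e1 = dv p E ∧ sgn p e1 = sgn p E ∧ dv p e2 = dv p F ∧ sgn p e2 = sgn p F := by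
    intro E F hE hF h1 h2
    obtain ⟨k1, k2⟩ := cmpx hx hq1 hE hs1 h1
    obtain ⟨k3, k4⟩ := cmpx hxA hq2 hF hs2 h2
    exact ⟨k1, k2, k3, k4⟩
  have hsum := v_mul3 (p := p) hx hxA hxB hxy
  rcases lt_or_ge (padicValRat p x) 1 with hv | hv
  · -- all squares
    have h1 : IsSquare (((x - (p * A1 : ℤ)) * x : ℚ) : ℚ_[p]) := by
      apply near hp2 hx
      right
      have e : x - ((p * A1 : ℤ) : ℚ) - x = -((p * A1 : ℤ) : ℚ) := by ring
      rw [e, v_neg, vA]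
      exact hv
    have h2 : IsSquare (((x - (p * B1 : ℤ)) * x : ℚ) : ℚ_[p]) := by
      apply near hp2 hx
      right
      have e : x - ((p * B1 : ℤ) : ℚ) - x = -((p * B1 : ℤ) : ℚ) := by ring
      rw [e, v_neg, vB]
      exact hv
    have h3 : IsSquare ((x : ℚ) : ℚ_[p]) :=
      sq_cancel hx (third hxA hxB hx hx (by rw [hxy]; ring) h1 h2)
    have h4 : IsSquare (((x - (p * A1 : ℤ)) : ℚ) : ℚ_[p]) := by
      apply sq_cancel hx
      have := sq_mul h1 h3
      rwa [mul_assoc] at this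
    obtain ⟨k1, k2, k3, k4⟩ := fin 1 1 (not_sq_of_unit not_dvd_one) (not_sq_of_unit not_dvd_one)
      (by push_cast at h3 ⊢; rwa [mul_one]) (by push_cast at h4 ⊢; rwa [mul_one])
    rw [k1, k2, k3, k4, dv_unit not_dvd_one, sgn_unit not_dvd_one, sg0_one]
    simp
  rcases hv.lt_or_eq with hv | hv
  · -- x = AB
    have h1 : IsSquare (((x - (p * A1 : ℤ)) * (-((p * A1 : ℤ) : ℚ)) : ℚ) : ℚ_[p]) := by
      apply near hp2 hnA0
      right
      have e : x - ((p * A1 : ℤ) : ℚ) - -((p * A1 : ℤ) : ℚ) = x := by ring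
      rw [e, v_neg, vA]
      exact hv
    have h2 : IsSquare (((x - (p * B1 : ℤ)) * (-((p * B1 : ℤ) : ℚ)) : ℚ) : ℚ_[p]) := by
      apply near hp2 hnB0
      right
      have e : x - ((p * B1 : ℤ) : ℚ) - -((p * B1 : ℤ) : ℚ) = x := by ring
      rw [e, v_neg, vB]
      exact hv
    have h3 := third hxA hxB hnA0 hnB0 (by rw [hxy]; ring) h1 h2
    have h4 : IsSquare ((x * ((A1 * B1 : ℤ) : ℚ) : ℚ) : ℚ_[p]) := by
      apply sq_cancel hpq
      convert h3 using 2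
      push_cast
      ring
    have hnA1 := not_dvd_neg hA1
    have hF : ¬ (p : ℤ) ^ 2 ∣ p * (-A1) := by
      rw [mul_neg, dvd_neg]
      exact hA2
    obtain ⟨k1, k2, k3, k4⟩ := fin (A1 * B1) (p * (-A1)) (not_sq_of_unit (not_dvd_mul hA1 hB1)) hF
      h4 (by convert h1 using 2; push_cast; ring)
    rw [k1, k2, k3, k4, dv_unit (not_dvd_mul hA1 hB1), dv_mul, sgn_mul,
      sgn_unit (not_dvd_mul hA1 hB1), sg0_mul hA1 hB1, sg0_neg hA1, m01, m02, m0, m2]
    clear jA jB jC sgj kC fin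
    revert kA kB
    generalize sg0 p A1 = s1
    generalize sg0 p B1 = s2
    generalize sg0 p (κ 0) = t1
    generalize sg0 p (κ 1) = t2
    generalize sg0 p (κ 2) = t3
    generalize sg0 p (-1) = t4
    revert neg s1 s2 t1 t2 t3 t4
    decide
  · by_cases hv2 : 1 < padicValRat p (x - (p * A1 : ℤ))
    · have h1 : IsSquare ((x * ((p * A1 : ℤ) : ℚ) : ℚ) : ℚ_[p]) := by
        apply near hp2 hA0
        right
        rw [vA]
        exact hv2
      have h2 : IsSquare (((x - (p * B1 : ℤ)) * ((p * A1 : ℤ) - (p * B1 : ℤ)) : ℚ) : ℚ_[p]) := by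
        apply near hp2 hC0
        right
        have e : x - ((p * B1 : ℤ) : ℚ) - (((p * A1 : ℤ) : ℚ) - ((p * B1 : ℤ) : ℚ)) =
          x - ((p * A1 : ℤ) : ℚ) := by ring
        rw [e]
        rw [vC]
        exact hv2
      have h3 := third (b := x - ((p * A1 : ℤ) : ℚ)) hx hxB hA0 hC0 (by rw [hxy]; ring) h1 h2
      have h4 : IsSquare (((x - (p * A1 : ℤ)) * ((A1 * (A1 - B1) : ℤ) : ℚ) : ℚ) : ℚ_[p]) := by
        apply sq_cancel hpq
        convert h3 using 2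
        push_cast
        ring
      obtain ⟨k1, k2, k3, k4⟩ := fin (p * A1) (A1 * (A1 - B1)) hA2
        (not_sq_of_unit (not_dvd_mul hA1 hC1)) h1 h4
      rw [k1, k2, k3, k4, dv_unit (not_dvd_mul hA1 hC1), dv_mul, sgn_mul,
        sgn_unit (not_dvd_mul hA1 hC1), sg0_mul hA1 hC1, m01, m02, m0, m2]
      clear jA jB jC sgj kB fin
      revert kA kC
      generalize sg0 p A1 = s1
      generalize sg0 p (A1 - B1) = s2
      generalize sg0 p (κ 0) = t1
      generalize sg0 p (κ 1) = t2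
      generalize sg0 p (κ 2) = t3
      generalize sg0 p (-1) = t4
      revert neg s1 s2 t1 t2 t3 t4
      decide
    · have hge : ∀ D : ℚ, padicValRat p D = 1 → x - D ≠ 0 → 1 ≤ padicValRat p (x - D) := by
        intro D hD h
        have := padicValRat.min_le_padicValRat_add (p := p) (q := x) (r := -D)
          (by rwa [← sub_eq_add_neg])
        rw [← sub_eq_add_neg, v_neg, hD, ← hv, min_self] at this
        exact this
      have hgA := hge _ vA hxA
      have hgB := hge _ vB hxB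
      have hv3 : 1 < padicValRat p (x - (p * B1 : ℤ)) := by omega
      have h1 : IsSquare ((x * ((p * B1 : ℤ) : ℚ) : ℚ) : ℚ_[p]) := by
        apply near hp2 hB0
        right
        rw [vB]
        exact hv3
      have hC0' : ((p * (-(A1 - B1)) : ℤ) : ℚ) ≠ 0 := by
        intro h
        apply hC0
        push_cast at h ⊢
        linarith
      have h2 : IsSquare (((x - (p * A1 : ℤ)) * ((p * (-(A1 - B1)) : ℤ) : ℚ) : ℚ) : ℚ_[p]) := by
        apply near hp2 hC0'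
        right
        have e : x - ((p * A1 : ℤ) : ℚ) - ((p * (-(A1 - B1)) : ℤ) : ℚ) =
          x - ((p * B1 : ℤ) : ℚ) := by push_cast; ring
        have e3 : ((p * (-(A1 - B1)) : ℤ) : ℚ) =
            -(((p * A1 : ℤ) : ℚ) - ((p * B1 : ℤ) : ℚ)) := by
          push_cast
          ring
        rw [e, e3, v_neg, vC]
        exact hv3
      have hnC1 := not_dvd_neg hC1
      have hF : ¬ (p : ℤ) ^ 2 ∣ p * (-(A1 - B1)) := by
        rw [mul_neg, dvd_neg, mul_sub]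
        exact hC2
      obtain ⟨k1, k2, k3, k4⟩ := fin (p * B1) (p * (-(A1 - B1))) hB2 hF h1 h2
      rw [k1, k2, k3, k4, dv_mul, dv_mul, sgn_mul, sgn_mul, sg0_neg hC1, m01, m02, m0, m2]
      clear jA jB jC sgj kA fin
      revert kB kC
      generalize sg0 p B1 = s1
      generalize sg0 p (A1 - B1) = s2
      generalize sg0 p (κ 0) = t1
      generalize sg0 p (κ 1) = t2
      generalize sg0 p (κ 2) = t3
      generalize sg0 p (-1) = t4
      revert neg s1 s2 t1 t2 t3 t4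
      decide

end Pool.Agent.W342.RK2
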